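import Pool.Agent.Helper6.AK.DGoals

/-! Project AK, goal DET: the deterministic conclusion (diameter for a fixed number of generators). -/

set_option linter.unusedSectionVars false

namespace Pool.Agent.Helper62.AKDET

open Matrix Equiv Filter Topology Pool.Agent.Helper15.An Pool.Agent.Helper6.FixK
  Pool.Agent.Helper6.T5 Pool.Agent.Helper6.W Pool.Agent.Helper6.AK

/-- the numerical conditions for large `n` -/
structure Cond (α ε e β C : ℝ) (j₀ : ℕ) (n : ℕ) : Prop where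
  a : 4 ≤ n
  b : (2 : ℝ) ≤ (n : ℝ) ^ (1 - e)
  c : (2 : ℝ) ≤ (n : ℝ) ^ α
  d : (120 : ℝ) ^ j₀ ≤ (n : ℝ) ^ e
  f : 12 * (64 : ℝ) ^ (j₀ + 1) ≤ (n : ℝ) ^ β
  g : 40 * (2 * Real.log n + 1) ≤ (n : ℝ) ^ (1 - α)
  h : 8 * Real.log n / ε + 1 ≤ n
  i : 4 * Real.log n / ε + 1 ≤ (n : ℝ) ^ (2 * e)
  j : C ≤ (n : ℝ) ^ e

theorem ev_cond {α ε e β C : ℝ} {j₀ : ℕ} (hα0 : 0 < α) (hα1 : α < 1) (hε : 0 < ε)
    (he : 0 < e) (he1 : e ≤ 1 / 12) (hβ : 0 < β) :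
    ∀ᶠ n : ℕ in atTop, Cond α ε e β C j₀ n := by
  have hlog : Tendsto (fun n : ℕ => Real.log n) atTop atTop :=
    Real.tendsto_log_atTop.comp tendsto_natCast_atTop_atTop
  have e1 := hlog.eventually (ev_exp (1 - e) 2 (by linarith))
  have e2 := hlog.eventually (ev_exp α 2 hα0)
  have e3 := hlog.eventually (ev_exp e (120 ^ j₀) he)
  have e4 := hlog.eventually (ev_exp β (12 * 64 ^ (j₀ + 1)) hβ)
  have e5 := hlog.eventually (ev_quad (1 - α) 80 (by linarith) (by norm_num))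
  have e6 := hlog.eventually (ev_quad 1 (8 / ε + 1) (by norm_num) (by positivity))
  have e7 := hlog.eventually (ev_quad (2 * e) (4 / ε + 1) (by positivity) (by positivity))
  have e8 := hlog.eventually (ev_exp e C he)
  filter_upwards [e1, e2, e3, e4, e5, e6, e7, e8, eventually_ge_atTop 4] with n h1 h2 h3 h4 h5 h6
    h7 h8 hn
  have hn0 : (0 : ℝ) < n := by
    have : 0 < n := by omega
    exact_mod_cast this
  have hn1 : (1 : ℝ) ≤ n := by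
    have : 1 ≤ n := by omega
    exact_mod_cast this
  set L := Real.log n with hL
  have hL0 : 0 ≤ L := Real.log_nonneg hn1
  have hexp : ∀ b : ℝ, (n : ℝ) ^ b = Real.exp (b * L) := fun b => by
    rw [Real.rpow_def_of_pos hn0, mul_comm]
  have hn' : Real.exp (1 * L) = n := by rw [one_mul, hL, Real.exp_log hn0]
  have hL1 : L + 1 ≤ (L + 1) ^ 2 := by nlinarith
  have hL2 : 1 ≤ (L + 1) ^ 2 := by nlinarith
  refine ⟨hn, ?_, ?_, ?_, ?_, ?_, ?_, ?_, ?_⟩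
  · rw [hexp]; exact h1
  · rw [hexp]; exact h2
  · rw [hexp]; exact h3
  · rw [hexp]; exact h4
  · rw [hexp]
    refine le_trans ?_ h5
    nlinarith
  · rw [hn'] at h6
    refine le_trans ?_ h6
    have h9 : 8 * L / ε ≤ 8 / ε * (L + 1) ^ 2 := by
      calc 8 * L / ε = 8 / ε * L := by ring
        _ ≤ 8 / ε * (L + 1) ^ 2 := by
          apply mul_le_mul_of_nonneg_left _ (by positivity)
          linarith
    linarith
  · rw [hexp]
    refine le_trans ?_ h7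
    have h9 : 4 * L / ε ≤ 4 / ε * (L + 1) ^ 2 := by
      calc 4 * L / ε = 4 / ε * L := by ring
        _ ≤ 4 / ε * (L + 1) ^ 2 := by
          apply mul_le_mul_of_nonneg_left _ (by positivity)
          linarith
    linarith
  · rw [hexp]; exact h8

/-- `n ^ m < 2 (1 + ε / 2) ^ t` for `t = ⌈4 m log n / ε⌉` -/
theorem pow_lt {n m t : ℕ} {ε : ℝ} (hε : 0 < ε) (hε1 : ε ≤ 1) (hn : 1 ≤ n)
    (ht : 4 * m * Real.log n / ε ≤ t) : (n : ℝ) ^ m < 2 * (1 + ε / 2) ^ t := by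
  have hn0 : (0 : ℝ) < n := by exact_mod_cast hn
  have hn1 : (1 : ℝ) ≤ n := by exact_mod_cast hn
  set L := Real.log n with hL
  have hL0 : 0 ≤ L := Real.log_nonneg hn1
  have hlogε : ε / 4 ≤ Real.log (1 + ε / 2) := by
    have h6 := Real.one_sub_inv_le_log_of_pos (show (0 : ℝ) < 1 + ε / 2 by positivity)
    have h7 : ε / 4 ≤ 1 - (1 + ε / 2)⁻¹ := by
      have h8 : (1 + ε / 2)⁻¹ ≤ 1 - ε / 4 := by
        have h9 : (1 : ℝ) ≤ (1 - ε / 4) * (1 + ε / 2) := by nlinarith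
        rw [inv_le_iff_one_le_mul₀ (by positivity)]
        exact h9
      linarith
    linarith
  have h6 : (n : ℝ) ^ m = Real.exp (m * L) := by
    rw [Real.exp_nat_mul, hL, Real.exp_log hn0]
  have h7 : (1 + ε / 2 : ℝ) ^ t = Real.exp (t * Real.log (1 + ε / 2)) := by
    rw [Real.exp_nat_mul, Real.exp_log (by positivity)]
  have h8 : Real.exp (m * L) ≤ (1 + ε / 2 : ℝ) ^ t := by
    rw [h7]
    apply Real.exp_le_exp.2
    have h9 : 4 * m * L / ε * (ε / 4) ≤ t * Real.log (1 + ε / 2) :=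
      mul_le_mul ht hlogε (by positivity) (Nat.cast_nonneg _)
    have h10 : 4 * m * L / ε * (ε / 4) = m * L := by field_simp
    linarith
  rw [h6]
  have := Real.exp_pos (m * L)
  linarith

/-- `(1 - ε / 2) ^ t ≤ 1 / n ^ 4` for `t ≥ 8 log n / ε` -/
theorem pow_le4 {n t : ℕ} {ε : ℝ} (hε : 0 < ε) (hε1 : ε ≤ 1) (hn : 1 ≤ n)
    (ht : 8 * Real.log n / ε ≤ t) : (1 - ε / 2) ^ t ≤ 1 / (n : ℝ) ^ 4 := by
  have hn0 : (0 : ℝ) < n := by exact_mod_cast hn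
  set L := Real.log n with hL
  have h1 : (1 - ε / 2) ≤ Real.exp (-(ε / 2)) := by
    have := Real.add_one_le_exp (-(ε / 2))
    linarith
  have h2 : (1 - ε / 2) ^ t ≤ Real.exp (-(ε / 2)) ^ t :=
    pow_le_pow_left₀ (by linarith) h1 t
  refine h2.trans ?_
  rw [← Real.exp_nat_mul]
  have h3 : 1 / (n : ℝ) ^ 4 = Real.exp (-(4 * L)) := by
    rw [Real.exp_neg, show (4 : ℝ) * L = ((4 : ℕ) : ℝ) * L by norm_num, Real.exp_nat_mul, hL,
      Real.exp_log hn0, one_div]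
  rw [h3]
  apply Real.exp_le_exp.2
  have h4 : 8 * L / ε * (ε / 2) ≤ t * (ε / 2) := by gcongr
  have h5 : 8 * L / ε * (ε / 2) = 4 * L := by field_simp; ring
  linarith

theorem log2_le {n : ℕ} (hn : 1 ≤ n) : (Nat.log 2 n : ℝ) ≤ 2 * Real.log n := by
  have h6 : (2 : ℝ) ^ (Nat.log 2 n) ≤ n := by
    exact_mod_cast Nat.pow_log_le_self 2 (by omega)
  have h7 := Real.log_le_log (by positivity) h6
  rw [Real.log_pow] at h7
  have h8 : (1 / 2 : ℝ) ≤ Real.log 2 := by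
    have := Real.log_two_gt_d9
    linarith
  have h9 : (Nat.log 2 n : ℝ) * (1 / 2) ≤ Nat.log 2 n * Real.log 2 := by gcongr
  linarith

/-- the exponents -/
theorem exps {α δ : ℝ} (hα0 : 0 < α) (hα1 : α < 1) (hδ : 0 < δ) :
    ∃ e : ℝ, 0 < e ∧ e ≤ 1 / 12 ∧ e ≤ δ / 8 ∧ e ≤ α / 4 ∧ ∃ j₀ : ℕ,
      α - 2 * e ≤ 1 - (j₀ + 1) * e ∧ 1 - (j₀ + 1) * e < α - e := by
  set e : ℝ := min (δ / 8) (min (1 / 12) (α / 4)) with he
  have he0 : 0 < e := by
    rw [he]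
    exact lt_min (by positivity) (lt_min (by norm_num) (by positivity))
  have he1 : e ≤ δ / 8 := min_le_left _ _
  have he2 : e ≤ 1 / 12 := (min_le_right _ _).trans (min_le_left _ _)
  have he3 : e ≤ α / 4 := (min_le_right _ _).trans (min_le_right _ _)
  refine ⟨e, he0, he2, he1, he3, ?_⟩
  set N := ⌊(1 - α + 2 * e) / e⌋₊ with hN
  have h1 : (N : ℝ) ≤ (1 - α + 2 * e) / e := Nat.floor_le (div_nonneg (by linarith) he0.le)
  have h2 : (1 - α + 2 * e) / e < N + 1 := Nat.lt_floor_add_one _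
  rw [le_div_iff₀ he0] at h1
  rw [div_lt_iff₀ he0] at h2
  have h3 : 1 ≤ N := by
    by_contra h
    have h4 : N = 0 := by omega
    rw [h4] at h2
    push_cast at h2
    linarith
  refine ⟨N - 1, ?_, ?_⟩
  · have : ((N - 1 : ℕ) : ℝ) + 1 = N := by
      rw [Nat.cast_sub h3]; push_cast; ring
    rw [this]; linarith
  · have : ((N - 1 : ℕ) : ℝ) + 1 = N := by
      rw [Nat.cast_sub h3]; push_cast; ring
    rw [this]; linarith

theorem thm (hpow : Pool.Agent.Helper6.AK.S_POW) (hnul : Pool.Agent.Helper6.AK.S_NUL)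
    (hdesc : Pool.Agent.Helper6.AK.S_DESC) (hfin : Pool.Agent.Helper6.AK.S_FIN) :
    Pool.Agent.Helper6.AK.S_DET := by
  intro k hk α hα0 hα1 ε hε hε1 δ hδ
  obtain ⟨e, he0, he12, heδ, heα, j₀, hβ1, hβ2⟩ := exps hα0 hα1 hδ
  refine ⟨e, he0, he12, ?_⟩
  set β : ℝ := 1 - (j₀ + 1) * e with hβ
  have hβ0 : 0 < β := by linarith
  set C : ℝ := (6 * 64 ^ (j₀ + 1) + 1) * (4 ^ (j₀ + 2) + 16) with hC
  filter_upwards [ev_cond (C := C) (j₀ := j₀) hα0 hα1 hε he0 he12 hβ0, hdesc e he0 j₀ hβ0] with n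
    hc hd x hgap hu
  obtain ⟨ha, hb, hc', hd', hf, hg, hh, hi, hj⟩ := hc
  obtain ⟨j, hjlt, hju⟩ := hu
  have hn1' : 1 ≤ n := by omega
  have hn0 : (0 : ℝ) < n := by exact_mod_cast hn1'
  have hn1 : (1 : ℝ) ≤ n := by exact_mod_cast hn1'
  set L := Real.log n with hL
  have hL0 : 0 ≤ L := Real.log_nonneg hn1
  set S := ⌊(n : ℝ) ^ (1 - e)⌋₊ with hS
  obtain ⟨M, hM, hS1, hS2⟩ := hpow _ hju
  set u : Alt n := x ⟨0, by omega⟩ * x ⟨1, by omega⟩ ^ j with hu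
  set c₀ : Perm (Fin n) := (u : Perm (Fin n)) ^ M with hc₀
  set X : Fin k → Perm (Fin n) := fun i => (x i : Perm (Fin n)) with hX
  -- the word for `c₀`
  have hr0 : Reach X (n * ⌈(n : ℝ) ^ (2 * e)⌉₊) c₀ := by
    have h1 : Reach x 1 (x ⟨0, by omega⟩) := Reach.gen _
    have h2 : Reach x 1 (x ⟨1, by omega⟩) := Reach.gen _
    have h3 : Reach x (1 + j * 1) u := h1.mul (h2.pow j)
    have h4 : Reach X (M * (1 + j * 1)) c₀ := (h3.map (Alt n).subtype).pow M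
    refine h4.mono ?_
    apply Nat.mul_le_mul hM
    omega
  have hSle : (S : ℝ) ≤ (n : ℝ) ^ (1 - e) := Nat.floor_le (by positivity)
  have hSge : (n : ℝ) ^ (1 - e) < S + 1 := Nat.lt_floor_add_one _
  have hs1 : (n : ℝ) ^ (1 - e) / 8 ≤ c₀.support.card := by
    have h1 : (S : ℝ) ≤ 4 * c₀.support.card := by exact_mod_cast hS1
    linarith
  have hs2 : (c₀.support.card : ℝ) ≤ (n : ℝ) ^ (1 - e) := by
    have h1 : (c₀.support.card : ℝ) ≤ S := by exact_mod_cast hS2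
    linarith
  -- the nearly uniform weight
  set t₁ := ⌈8 * L / ε⌉₊ with ht₁
  have ht₁1 : 8 * L / ε ≤ t₁ := Nat.le_ceil _
  have ht₁2 : (t₁ : ℝ) ≤ 8 * L / ε + 1 := (Nat.ceil_lt_add_one (by positivity)).le
  have hgap2 : TupleGap x 2 ε := hgap 2 (by push_cast; exact hc')
  obtain ⟨κ, hκ, hκr⟩ := hnul (by omega) ha x hε hε1 hgap2 (pow_le4 hε hε1 hn1' ht₁1)
  obtain ⟨c, hcr, hc1, hc2⟩ := hd k x κ t₁ (n * ⌈(n : ℝ) ^ (2 * e)⌉₊) hκ hκr c₀ hr0 hs1 hs2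
  rw [← hβ] at hc1 hc2
  set m := c.support.card with hm
  have hmα : (m : ℝ) ≤ (n : ℝ) ^ α := by
    refine hc2.trans ?_
    calc (120 : ℝ) ^ j₀ * (n : ℝ) ^ β ≤ (n : ℝ) ^ e * (n : ℝ) ^ β := by gcongr
      _ = (n : ℝ) ^ (e + β) := by rw [Real.rpow_add hn0]
      _ ≤ (n : ℝ) ^ α := Real.rpow_le_rpow_of_exponent_le hn1 (by linarith)
  have hgapm := hgap m hmα
  have hmn : m ≤ n := by
    have := Finset.card_le_univ c.support
    rw [Fintype.card_fin] at this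
    exact this
  have hm12 : 12 ≤ m := by
    have h1 : (12 : ℝ) ≤ m := by
      refine le_trans ?_ hc1
      rw [le_div_iff₀ (by positivity)]
      exact hf
    exact_mod_cast h1
  set t₂ := ⌈4 * m * L / ε⌉₊ with ht₂
  have ht₂1 : 4 * m * L / ε ≤ t₂ := Nat.le_ceil _
  have ht₂2 : (t₂ : ℝ) ≤ 4 * m * L / ε + 1 := (Nat.ceil_lt_add_one (by positivity)).le
  intro g
  obtain ⟨q, hq, l, hl, hlg⟩ := hfin (by omega) x hε (by omega) hmn hgapm
    (pow_lt hε hε1 hn1' ht₂1) c rfl hcr g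
  refine ⟨l, ?_, hlg⟩
  have hlq : (l.length : ℝ) ≤ q := by exact_mod_cast hl
  refine hlq.trans ?_
  -- numerics
  set τ := m / 3 - 1 with hτ
  have hτm : m ≤ 6 * τ := by omega
  have hτmr : (m : ℝ) ≤ 6 * τ := by exact_mod_cast hτm
  have hm0 : (0 : ℝ) < m := by
    have : 0 < m := by omega
    exact_mod_cast this
  have hτ0 : (0 : ℝ) < τ := by linarith
  set ℓ := 4 ^ j₀ * (n * ⌈(n : ℝ) ^ (2 * e)⌉₊ + 2 * t₁) with hℓ
  have hq' : (τ : ℝ) * q ≤ (n + 40 * τ * (Nat.log 2 n + 1)) * (4 * (ℓ + 4 * t₂)) := by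
    exact_mod_cast hq
  -- bound of the first factor
  have hP2e : (1 : ℝ) ≤ (n : ℝ) ^ (2 * e) := Real.one_le_rpow hn1 (by linarith)
  have hA1 : (n : ℝ) ≤ τ * (6 * 64 ^ (j₀ + 1) * (n : ℝ) ^ (1 - α + 2 * e)) := by
    have h1 : (n : ℝ) ^ β ≤ 64 ^ (j₀ + 1) * m := by
      rw [div_le_iff₀ (by positivity)] at hc1
      linarith
    have h2 : (n : ℝ) = (n : ℝ) ^ β * (n : ℝ) ^ (1 - β) := by
      rw [← Real.rpow_add hn0]
      simp
    calc (n : ℝ) = (n : ℝ) ^ β * (n : ℝ) ^ (1 - β) := h2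
      _ ≤ (64 ^ (j₀ + 1) * (6 * τ)) * (n : ℝ) ^ (1 - α + 2 * e) := by
          apply mul_le_mul
          · refine h1.trans ?_
            gcongr
          · exact Real.rpow_le_rpow_of_exponent_le hn1 (by linarith)
          · positivity
          · positivity
      _ = _ := by ring
  have hA2 : 40 * (τ : ℝ) * (Nat.log 2 n + 1) ≤ τ * (n : ℝ) ^ (1 - α + 2 * e) := by
    have h1 := log2_le hn1'
    have h2 : 40 * ((Nat.log 2 n : ℝ) + 1) ≤ (n : ℝ) ^ (1 - α + 2 * e) := by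
      calc 40 * ((Nat.log 2 n : ℝ) + 1) ≤ 40 * (2 * L + 1) := by linarith
        _ ≤ (n : ℝ) ^ (1 - α) := hg
        _ ≤ (n : ℝ) ^ (1 - α + 2 * e) := Real.rpow_le_rpow_of_exponent_le hn1 (by linarith)
    calc 40 * (τ : ℝ) * (Nat.log 2 n + 1) = τ * (40 * ((Nat.log 2 n : ℝ) + 1)) := by ring
      _ ≤ τ * (n : ℝ) ^ (1 - α + 2 * e) := by gcongr
  have hA : (n : ℝ) + 40 * τ * (Nat.log 2 n + 1) ≤
      τ * ((6 * 64 ^ (j₀ + 1) + 1) * (n : ℝ) ^ (1 - α + 2 * e)) := by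
    calc (n : ℝ) + 40 * τ * (Nat.log 2 n + 1) ≤
        τ * (6 * 64 ^ (j₀ + 1) * (n : ℝ) ^ (1 - α + 2 * e)) + τ * (n : ℝ) ^ (1 - α + 2 * e) := by
          linarith
      _ = _ := by ring
  -- bound of the second factor
  have hN : (n : ℝ) ^ (1 + 2 * e) = n * (n : ℝ) ^ (2 * e) := by
    rw [Real.rpow_add hn0, Real.rpow_one]
  have hN1 : (n : ℝ) ≤ (n : ℝ) ^ (1 + 2 * e) := by
    rw [hN]; nlinarith
  have hceil : (⌈(n : ℝ) ^ (2 * e)⌉₊ : ℝ) ≤ 2 * (n : ℝ) ^ (2 * e) := by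
    have := (Nat.ceil_lt_add_one (show (0 : ℝ) ≤ (n : ℝ) ^ (2 * e) by positivity)).le
    linarith
  have hℓr : (ℓ : ℝ) ≤ 4 ^ (j₀ + 1) * (n : ℝ) ^ (1 + 2 * e) := by
    have h1 : (ℓ : ℝ) = 4 ^ j₀ * (n * ⌈(n : ℝ) ^ (2 * e)⌉₊ + 2 * t₁) := by
      rw [hℓ]; push_cast; ring
    rw [h1, pow_succ, mul_assoc]
    apply mul_le_mul_of_nonneg_left _ (by positivity)
    have h2 : (n : ℝ) * ⌈(n : ℝ) ^ (2 * e)⌉₊ ≤ 2 * (n : ℝ) ^ (1 + 2 * e) := by
      rw [hN]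
      calc (n : ℝ) * ⌈(n : ℝ) ^ (2 * e)⌉₊ ≤ n * (2 * (n : ℝ) ^ (2 * e)) := by gcongr
        _ = _ := by ring
    have h3 : (t₁ : ℝ) ≤ (n : ℝ) ^ (1 + 2 * e) := by linarith
    linarith
  have ht₂r : (t₂ : ℝ) ≤ (n : ℝ) ^ (1 + 2 * e) := by
    have hmr : (m : ℝ) ≤ n := by exact_mod_cast hmn
    have h1 : 4 * m * L / ε ≤ n * (4 * L / ε) := by
      calc 4 * m * L / ε = m * (4 * L / ε) := by ring
        _ ≤ n * (4 * L / ε) := by gcongr
    rw [hN]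
    calc (t₂ : ℝ) ≤ 4 * m * L / ε + 1 := ht₂2
      _ ≤ n * (4 * L / ε) + n := by linarith
      _ = n * (4 * L / ε + 1) := by ring
      _ ≤ n * (n : ℝ) ^ (2 * e) := by gcongr
  have hB : 4 * ((ℓ : ℝ) + 4 * t₂) ≤ (4 ^ (j₀ + 2) + 16) * (n : ℝ) ^ (1 + 2 * e) := by
    calc 4 * ((ℓ : ℝ) + 4 * t₂) ≤
        4 * (4 ^ (j₀ + 1) * (n : ℝ) ^ (1 + 2 * e) + 4 * (n : ℝ) ^ (1 + 2 * e)) := by linarith
      _ = _ := by rw [pow_succ (4 : ℝ) (j₀ + 1)]; ring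
  have hfinal : (τ : ℝ) * q ≤ τ * (n : ℝ) ^ (2 - α + δ) := by
    calc (τ : ℝ) * q ≤ (n + 40 * τ * (Nat.log 2 n + 1)) * (4 * (ℓ + 4 * t₂)) := hq'
      _ ≤ (τ * ((6 * 64 ^ (j₀ + 1) + 1) * (n : ℝ) ^ (1 - α + 2 * e))) *
          ((4 ^ (j₀ + 2) + 16) * (n : ℝ) ^ (1 + 2 * e)) := by
          apply mul_le_mul hA hB (by positivity) (by positivity)
      _ = τ * (C * (n : ℝ) ^ (2 - α + 4 * e)) := by
          have : (n : ℝ) ^ (2 - α + 4 * e) =
              (n : ℝ) ^ (1 - α + 2 * e) * (n : ℝ) ^ (1 + 2 * e) := by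
            rw [← Real.rpow_add hn0]; congr 1; ring
          rw [this, hC]; ring
      _ ≤ τ * ((n : ℝ) ^ e * (n : ℝ) ^ (2 - α + 4 * e)) := by gcongr
      _ = τ * (n : ℝ) ^ (2 - α + 5 * e) := by
          rw [← Real.rpow_add hn0]; congr 2; ring
      _ ≤ τ * (n : ℝ) ^ (2 - α + δ) := by
          apply mul_le_mul_of_nonneg_left _ hτ0.le
          exact Real.rpow_le_rpow_of_exponent_le hn1 (by linarith)
  exact le_of_mul_le_mul_left hfinal hτ0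

end Pool.Agent.Helper62.AKDET
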